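import Mathlib

/-!
# Correspondences `p, ι : M₁ → M` with a covering `p`: iterated lifts of paths

`p` is a covering map and `ι` a continuous map. A path `γ` of `M` is lifted by `p` to a path of `M₁`,
which is mapped by `ι` to a path of `M`, which is lifted by `p`, and so on. The main example is a
partial self-covering `p : M₁ → M` of `M`, `M₁ ⊆ M`, where `ι` is the inclusion: then the iterated
lifts of `γ` are the lifts of `γ` by the iterates of `p`.
-/

set_option autoImplicit false

namespace Pool.Agent.W5h38.IM

open unitInterval Topology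

section

variable {M M₁ : Type} [TopologicalSpace M] [TopologicalSpace M₁]

/-- `Γ 0` is a lift of `γ` by `p`, and `Γ (i + 1)` is a lift of `ι ∘ Γ i` by `p` for all `i`. -/
structure IteratedLift (p ι : M₁ → M) (γ : I → M) (Γ : ℕ → C(I, M₁)) : Prop where
  zero : ∀ s, p (Γ 0 s) = γ s
  succ : ∀ i s, p (Γ (i + 1) s) = ι (Γ i s)

/-- The loop `γ` acts trivially: all paths in its iterated lifts are closed. -/
def ActsTrivially (p ι : M₁ → M) (γ : I → M) : Prop :=
  ∀ Γ : ℕ → C(I, M₁), IteratedLift p ι γ Γ → ∀ i, Γ i 0 = Γ i 1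

end

/-- `ι` contracts distances locally at least by the factor `lam`, if the distances on `M₁` are
measured by means of the local homeomorphism `p`. For a partial self-covering `p : M₁ → M`,
`M₁ ⊆ M`, `ι` the inclusion, and `lam < 1`, this says that `p` is locally expanding. -/
def LocallyContracts {M M₁ : Type} [MetricSpace M] [TopologicalSpace M₁] (p ι : M₁ → M)
    (lam : ℝ) : Prop :=
  ∀ x : M₁, ∃ U ∈ 𝓝 x, ∀ y ∈ U, ∀ z ∈ U, dist (ι y) (ι z) ≤ lam * dist (p y) (p z)

/-- Every point of `M` has a neighbourhood in which all loops are null-homotopic in `M`. -/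
def SemilocallySimplyConnected (M : Type) [TopologicalSpace M] : Prop :=
  ∀ x : M, ∃ U ∈ 𝓝 x, ∀ (a : M) (γ : Path a a), (∀ s, γ s ∈ U) → γ.Homotopic (Path.refl a)

end Pool.Agent.W5h38.IM
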