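import Pool.Agent.W5h38.IM.Rec

/-!
# The loops that die
-/

set_option autoImplicit false

namespace Pool.Agent.W5h38.IM

open unitInterval Topology Pool.Agent.Y462.SS

variable {M M₁ : Type} [TopologicalSpace M] [TopologicalSpace M₁]
  {p : M₁ → M} (cov : IsCoveringMap p) (ι : C(M₁, M))

/-- the class `g` of loops dies: it is trivial or it lifts everywhere to loops which die -/
inductive DT : ∀ {a : M}, Path.Homotopic.Quotient a a → Prop
  | refl (a : M) : DT (Path.Homotopic.Quotient.refl a)
  | step {a : M} (g : Path.Homotopic.Quotient a a)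
      (d : ∀ (x : M₁) (_ : a = p x), Path.Homotopic.Quotient x x) :
      (∀ (x : M₁) (hx : a = p x), LiftsTo cov g (d x hx)) →
      (∀ (x : M₁) (hx : a = p x), DT ((d x hx).map ι)) → DT g

variable {cov ι}

theorem DT.lift {a : M} {g : Path.Homotopic.Quotient a a} (h : DT cov ι g) (x : M₁)
    (hx : a = p x) : ∃ d : Path.Homotopic.Quotient x x, LiftsTo cov g d ∧ DT cov ι (d.map ι) := by
  cases h with
  | refl => exact ⟨_, LiftsTo.refl hx, DT.refl _⟩
  | step _ d h h' => exact ⟨d x hx, h x hx, h' x hx⟩

theorem DT.mk {a : M} {g : Path.Homotopic.Quotient a a}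
    (h : ∀ (x : M₁) (_ : a = p x), ∃ d : Path.Homotopic.Quotient x x,
      LiftsTo cov g d ∧ DT cov ι (d.map ι)) : DT cov ι g := by
  choose d h1 h2 using h
  exact DT.step g d h1 h2

theorem conj_eq {X : Type} [TopologicalSpace X] {a b : X} {c : Path.Homotopic.Quotient a b}
    {g : Path.Homotopic.Quotient b b} {h : Path.Homotopic.Quotient a a}
    (e : h = c.trans (g.trans c.symm)) : g = c.symm.trans (h.trans c) := by
  rw [e]
  simp only [Path.Homotopic.Quotient.trans_assoc, Path.Homotopic.Quotient.symm_trans,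
    Path.Homotopic.Quotient.trans_refl]
  rw [← Path.Homotopic.Quotient.trans_assoc, Path.Homotopic.Quotient.symm_trans,
    Path.Homotopic.Quotient.refl_trans]

theorem symm_trans' {X : Type} [TopologicalSpace X] {a b c : X}
    (u : Path.Homotopic.Quotient a b) (v : Path.Homotopic.Quotient b c) :
    (u.trans v).symm = v.symm.trans u.symm := by
  have h : (u.trans v).symm = (u.trans v).symm.trans
      ((u.trans v).trans (v.symm.trans u.symm)) := by
    have : (u.trans v).trans (v.symm.trans u.symm) = Path.Homotopic.Quotient.refl a := by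
      simp only [Path.Homotopic.Quotient.trans_assoc]
      rw [← Path.Homotopic.Quotient.trans_assoc v, Path.Homotopic.Quotient.trans_symm,
        Path.Homotopic.Quotient.refl_trans, Path.Homotopic.Quotient.trans_symm]
    rw [this, Path.Homotopic.Quotient.trans_refl]
  rw [h, ← Path.Homotopic.Quotient.trans_assoc, Path.Homotopic.Quotient.symm_trans,
    Path.Homotopic.Quotient.refl_trans]

theorem symm_symm' {X : Type} [TopologicalSpace X] {a b : X}
    (u : Path.Homotopic.Quotient a b) : u.symm.symm = u := by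
  induction u using Path.Homotopic.Quotient.ind with | mk u =>
  rw [← Path.Homotopic.Quotient.mk_symm, ← Path.Homotopic.Quotient.mk_symm, Path.symm_symm]

theorem cast_of_eq {X : Type} [TopologicalSpace X] {a b : X}
    (u : Path.Homotopic.Quotient a b) (h1 : a = a) (h2 : b = b) : u.cast h1 h2 = u :=
  Path.Homotopic.Quotient.cast_rfl_rfl u

section psi

variable {t : M} (l : ∀ x : M, Path.Homotopic.Quotient t x)

theorem dies_of_dt {a : M} {g : Path.Homotopic.Quotient a a} (h : DT cov ι g) :
    ∀ c : Path.Homotopic.Quotient t a,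
      Dies (psi cov ι l) (c.trans (g.trans c.symm) : Path.Homotopic.Quotient t t) := by
  induction h with
  | refl a =>
    intro c
    have e : (c.trans ((Path.Homotopic.Quotient.refl a).trans c.symm) :
        Path.Homotopic.Quotient t t) = (1 : FundamentalGroup M t) := by
      rw [Path.Homotopic.Quotient.refl_trans, Path.Homotopic.Quotient.trans_symm]
      rfl
    rw [e]
    exact Dies.one
  | step g dd hdd _ ih =>
    intro c
    refine Dies.step _ ?_ ?_
    · ext y
      obtain ⟨x, e, he⟩ := LiftsTo.exists_lift (cov := cov) c y.2.symm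
      exact (he.trans ((hdd x he.right).trans he.symm)).monodromy
    · intro y
      obtain ⟨x, e, he⟩ := LiftsTo.exists_lift (cov := cov) c y.2.symm
      obtain ⟨d, hd⟩ : ∃ d, d = dd x he.right := ⟨_, rfl⟩
      have hd' : LiftsTo cov g d := hd ▸ hdd x he.right
      have e1 := sec_eq ι l (he.trans (hd'.trans he.symm))
      have e2 := ih x he.right ((l (ι y.1)).trans (e.map ι))
      rw [← hd] at e2
      have e3 : ((psi cov ι l) (c.trans (g.trans c.symm) : Path.Homotopic.Quotient t t)).s y =
          ((l (ι y.1)).trans (e.map ι)).trans ((d.map ι).trans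
            ((l (ι y.1)).trans (e.map ι)).symm) := by
        change sec cov ι l (c.trans (g.trans c.symm)) y = _
        rw [e1, map_trans, map_trans, map_symm, symm_trans']
        simp only [Path.Homotopic.Quotient.trans_assoc]
      rw [e3]
      exact e2

theorem dt_of_dies {γ : FundamentalGroup M t} (h : Dies (psi cov ι l) γ) :
    ∀ {a : M} (g : Path.Homotopic.Quotient a a) (c : Path.Homotopic.Quotient t a),
      γ = (c.trans (g.trans c.symm) : Path.Homotopic.Quotient t t) → DT cov ι g := by
  induction h with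
  | one =>
    intro a g c e
    have e2 := conj_eq (c := c) (g := g) (h := Path.Homotopic.Quotient.refl t) e
    rw [Path.Homotopic.Quotient.refl_trans, Path.Homotopic.Quotient.symm_trans] at e2
    rw [e2]
    exact DT.refl a
  | step γ hp hs ih =>
    intro a g c e
    refine DT.mk fun x hx => ?_
    obtain ⟨y, f, hf⟩ := LiftsTo.exists_lift (cov := cov) c.symm hx
    have hf' : LiftsTo cov c f.symm := by
      have := hf.symm
      rwa [symm_symm'] at this
    obtain ⟨z, d, hd⟩ := LiftsTo.exists_lift (cov := cov) g hx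
    obtain ⟨w, f2, hf2⟩ := LiftsTo.exists_lift (cov := cov) c.symm hd.right
    have hy : t = p y := hf.right
    have h1 : LiftsTo cov (c.trans (g.trans c.symm)) (f.symm.trans (d.trans f2)) :=
      hf'.trans (hd.trans hf2)
    have h2 : (cov.monodromy (c.trans (g.trans c.symm)) (⟨y, hy.symm⟩ : p ⁻¹' {t})).1 = w :=
      LiftsTo.monodromy (x := ⟨y, hy.symm⟩) h1
    have h3 : (cov.monodromy (c.trans (g.trans c.symm)) (⟨y, hy.symm⟩ : p ⁻¹' {t})).1 = y := by
      have h4 := congrArg (fun q : Equiv.Perm (p ⁻¹' {t}) => (q ⟨y, hy.symm⟩).1) hp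
      rw [e] at h4
      exact h4
    have hwy : w = y := h2.symm.trans h3
    subst hwy
    have hf2' : LiftsTo cov c f2.symm := by
      have := hf2.symm
      rwa [symm_symm'] at this
    obtain ⟨hxz, _⟩ := hf'.unique hf2'
    subst hxz
    obtain ⟨_, hff⟩ := hf.unique hf2
    rw [cast_of_eq] at hff
    subst hff
    refine ⟨d, hd, ?_⟩
    refine ih ⟨w, hy.symm⟩ (d.map ι) ((l (ι w)).trans (f2.symm.map ι)) ?_
    rw [e]
    change sec cov ι l (c.trans (g.trans c.symm)) ⟨w, hy.symm⟩ = _
    rw [sec_eq ι l (x := ⟨w, hy.symm⟩) h1, map_trans, map_trans, map_symm, symm_trans', symm_symm']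
    simp only [Path.Homotopic.Quotient.trans_assoc]

theorem dies_iff_dt (γ : Path.Homotopic.Quotient t t) :
    Dies (psi cov ι l) (γ : FundamentalGroup M t) ↔ DT cov ι γ := by
  constructor
  · intro h
    refine dt_of_dies l h γ (Path.Homotopic.Quotient.refl t) ?_
    rw [Path.Homotopic.Quotient.refl_trans]
    have : (Path.Homotopic.Quotient.refl t).symm = Path.Homotopic.Quotient.refl t := rfl
    rw [this, Path.Homotopic.Quotient.trans_refl]
  · intro h
    have h1 := dies_of_dt l h (Path.Homotopic.Quotient.refl t)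
    rw [Path.Homotopic.Quotient.refl_trans] at h1
    have : (Path.Homotopic.Quotient.refl t).symm = Path.Homotopic.Quotient.refl t := rfl
    rw [this, Path.Homotopic.Quotient.trans_refl] at h1
    exact h1

end psi

/-! ## loops that die act trivially -/

theorem acts_of_dt (i : ℕ) : ∀ {a : M} (γ : Path a a), DT cov ι (Path.Homotopic.Quotient.mk γ) →
    ∀ Γ : ℕ → C(I, M₁), IteratedLift p ι γ Γ → Γ i 0 = Γ i 1 := by
  induction i with
  | zero =>
    intro a γ h Γ hΓ
    let δ : Path (Γ 0 0) (Γ 0 1) := ⟨Γ 0, rfl, rfl⟩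
    have h1 : LiftsTo cov (Path.Homotopic.Quotient.mk γ) (Path.Homotopic.Quotient.mk δ) :=
      LiftsTo.path γ δ hΓ.zero
    obtain ⟨d, hd, _⟩ := h.lift _ h1.left
    exact (hd.unique h1).1
  | succ i ih =>
    intro a γ h Γ hΓ
    let δ : Path (Γ 0 0) (Γ 0 1) := ⟨Γ 0, rfl, rfl⟩
    have h1 : LiftsTo cov (Path.Homotopic.Quotient.mk γ) (Path.Homotopic.Quotient.mk δ) :=
      LiftsTo.path γ δ hΓ.zero
    obtain ⟨d, hd, hD⟩ := h.lift _ h1.left
    obtain ⟨e, hdd⟩ := h1.unique hd
    let δ' : Path (Γ 0 0) (Γ 0 0) := ⟨Γ 0, rfl, e⟩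
    have h2 : d = Path.Homotopic.Quotient.mk δ' := by
      rw [hdd, ← Path.Homotopic.Quotient.mk_cast]
      rfl
    rw [h2, ← Path.Homotopic.Quotient.mk_map] at hD
    exact ih (δ'.map ι.continuous) hD (fun j => Γ (j + 1)) ⟨fun s => hΓ.succ 0 s,
      fun j s => hΓ.succ (j + 1) s⟩

end Pool.Agent.W5h38.IM
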