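import Pool.Agent.W5h38.IM.Small
import Pool.Agent.Y331.SS.Lim
import Pool.Agent.Y812.SS.Wr

/-!
# Loops that act trivially die, and the class of the iterated monodromy group
-/

set_option autoImplicit false

namespace Pool.Agent.W5h38.IM

open unitInterval Topology Metric Pool.Agent.Y462.SS

section dies

variable {M M₁ : Type} [MetricSpace M] [CompactSpace M] [PathConnectedSpace M]
  [TopologicalSpace M₁] {p : M₁ → M} {cov : IsCoveringMap p} {ι : C(M₁, M)}

omit [CompactSpace M] in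
theorem surj (cov : IsCoveringMap p) (x : M₁) (m : M) : ∃ y, p y = m := by
  obtain ⟨y, d, h⟩ := LiftsTo.exists_lift (cov := cov)
    (Path.Homotopic.Quotient.mk (PathConnectedSpace.somePath (p x) m)) (x := x) rfl
  exact ⟨y, h.right.symm⟩

omit [CompactSpace M] in
/-- every lift of `γ` can be continued to an iterated lift -/
theorem exists_iterated (cov : IsCoveringMap p) (ι : C(M₁, M)) {γ : I → M} (Γ₀ : C(I, M₁))
    (h : ∀ s, p (Γ₀ s) = γ s) : ∃ Γ, IteratedLift p ι γ Γ ∧ Γ 0 = Γ₀ := by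
  have hnext : ∀ Γ : C(I, M₁), ∃ Γ' : C(I, M₁), ∀ s, p (Γ' s) = ι (Γ s) := by
    intro Γ
    obtain ⟨y, hy⟩ := surj cov (Γ 0) (ι (Γ 0))
    obtain ⟨Γ', h1, _⟩ := cov.exists_path_lifts (ι.comp Γ) y hy.symm
    exact ⟨Γ', fun s => congrFun h1 s⟩
  choose next hnext using hnext
  refine ⟨fun i => next^[i] Γ₀, ⟨h, fun i s => ?_⟩, rfl⟩
  rw [Function.iterate_succ_apply']
  exact hnext _ s

theorem dt_of_acts {lam ε ε' : ℝ} (hl0 : 0 ≤ lam) (hl1 : lam ≤ 1)
    (hε : ∀ (Γ : C(I, M₁)) (S : Set I), IsPreconnected S →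
      (∀ u ∈ S, ∀ v ∈ S, dist (p (Γ u)) (p (Γ v)) < ε) →
      ∀ u ∈ S, ∀ v ∈ S, dist (ι (Γ u)) (ι (Γ v)) ≤ lam * dist (p (Γ u)) (p (Γ v)))
    (hε' : ∀ (a : M) (γ : Path a a), (∀ s, dist (γ s) a < ε') → γ.Homotopic (Path.refl a))
    {t : ℕ → I} {N : ℕ} (h0 : t 0 = 0) (hm : Monotone t) (hN : t N = 1) (n : ℕ) :
    ∀ {a : M} (γ : Path a a) {r : ℝ}, 0 ≤ r → r < ε →
      (∀ k, ∀ u ∈ Set.Icc (t k) (t (k + 1)), ∀ v ∈ Set.Icc (t k) (t (k + 1)),
        dist (γ u) (γ v) ≤ r) →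
      N * (lam ^ n * r) < ε' → ActsTrivially p ι γ → DT cov ι (Path.Homotopic.Quotient.mk γ) := by
  induction n with
  | zero =>
    intro a γ r hr _ hp hn _
    have h1 : ∀ s, dist (γ s) a < ε' := by
      intro s
      have h2 := total h0 hm hN γ hr hp s
      rw [γ.source] at h2
      rw [pow_zero, one_mul] at hn
      exact h2.trans_lt hn
    have h3 : Path.Homotopic.Quotient.mk γ = Path.Homotopic.Quotient.refl a :=
      Path.Homotopic.Quotient.eq.2 (hε' a γ h1)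
    rw [h3]
    exact DT.refl a
  | succ n ih =>
    intro a γ r hr hrε hp hn hact
    refine DT.mk fun x hx => ?_
    obtain ⟨Γ₀, h1, h2⟩ := cov.exists_path_lifts (γ : C(I, M)) x (by
      change γ 0 = p x
      rw [γ.source, hx])
    have h1' : ∀ s, p (Γ₀ s) = γ s := fun s => congrFun h1 s
    obtain ⟨Γ, hΓ, hΓ0⟩ := exists_iterated cov ι Γ₀ h1'
    have h3 : Γ₀ 0 = Γ₀ 1 := by
      have := hact Γ hΓ 0
      rwa [hΓ0] at this
    let δ : Path x x := ⟨Γ₀, h2, h3.symm.trans h2⟩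
    refine ⟨Path.Homotopic.Quotient.mk δ, LiftsTo.path γ δ h1', ?_⟩
    rw [← Path.Homotopic.Quotient.mk_map]
    refine ih (δ.map ι.continuous) (r := lam * r) (mul_nonneg hl0 hr) ?_ ?_ ?_ ?_
    · exact (mul_le_of_le_one_left hr hl1).trans_lt hrε
    · intro k u hu v hv
      have h4 := hε Γ₀ (Set.Icc (t k) (t (k + 1))) isPreconnected_Icc (fun u hu v hv => by
        rw [h1', h1']
        exact (hp k u hu v hv).trans_lt hrε) u hu v hv
      refine h4.trans ?_
      rw [h1', h1']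
      exact mul_le_mul_of_nonneg_left (hp k u hu v hv) hl0
    · have e : (N : ℝ) * (lam ^ n * (lam * r)) = N * (lam ^ (n + 1) * r) := by ring
      rw [e]
      exact hn
    · intro Γ' hΓ' i
      have h5 : IteratedLift p ι γ (fun j => Nat.casesOn j Γ₀ Γ') := by
        refine ⟨h1', fun j s => ?_⟩
        cases j with
        | zero => exact hΓ'.zero s
        | succ j => exact hΓ'.succ j s
      exact hact _ h5 (i + 1)

end dies

/-- the loops of a self-similar covering that act trivially are those that die -/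
theorem acts_iff_dt {M M₁ : Type} [MetricSpace M] [CompactSpace M] [PathConnectedSpace M]
    [TopologicalSpace M₁] {p : M₁ → M} (cov : IsCoveringMap p) (ι : C(M₁, M))
    (hfin : ∀ m, Finite (p ⁻¹' {m})) (hM : SemilocallySimplyConnected M)
    {lam : ℝ} (hlam : lam < 1) (hc : LocallyContracts p ι lam) {a : M} (γ : Path a a) :
    ActsTrivially p ι γ ↔ DT cov ι (Path.Homotopic.Quotient.mk γ) := by
  refine ⟨fun h => ?_, fun h Γ hΓ i => acts_of_dt i γ h Γ hΓ⟩
  obtain ⟨lam', hl, hl0, hl1⟩ : ∃ lam' : ℝ, lam ≤ lam' ∧ 0 ≤ lam' ∧ lam' < 1 :=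
    ⟨max lam 0, le_max_left _ _, le_max_right _ _, max_lt hlam one_pos⟩
  have hc' : LocallyContracts p ι lam' := fun x => by
    obtain ⟨U, hU, hUc⟩ := hc x
    exact ⟨U, hU, fun y hy z hz => (hUc y hy z hz).trans
      (mul_le_mul_of_nonneg_right hl dist_nonneg)⟩
  obtain ⟨ε, hε, hεc⟩ := contr_unif cov hfin hc'
  obtain ⟨ε', hε', hεc'⟩ := tiny_loops hM
  obtain ⟨t, N, h0, hm, hN, hp⟩ := partition (γ : C(I, M)) (half_pos hε)
  obtain ⟨n, hn⟩ : ∃ n : ℕ, (N : ℝ) * (lam' ^ n * (ε / 2)) < ε' := by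
    have h1 : Filter.Tendsto (fun n : ℕ => (N : ℝ) * (lam' ^ n * (ε / 2))) Filter.atTop
        (𝓝 (N * (0 * (ε / 2)))) :=
      ((tendsto_pow_atTop_nhds_zero_of_lt_one hl0 hl1).mul_const _).const_mul _
    rw [zero_mul, mul_zero] at h1
    exact (h1.eventually (gt_mem_nhds hε')).exists
  exact dt_of_acts hl0 hl1.le hεc hεc' h0 hm hN n γ (half_pos hε).le (half_lt_self hε) hp hn h

/-- **The iterated monodromy group is in the class.** -/
theorem main (C : ∀ (G : Type) [Group G], Prop) (hC : Closed C)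
    {M M₁ : Type} [MetricSpace M] [CompactSpace M] [PathConnectedSpace M]
    [TopologicalSpace M₁] {p : M₁ → M} (cov : IsCoveringMap p) (ι : C(M₁, M))
    (hfin : ∀ m, Finite (p ⁻¹' {m})) (hM : SemilocallySimplyConnected M)
    {lam : ℝ} (hlam : lam < 1) (hc : LocallyContracts p ι lam) (t : M)
    (hπ : C (FundamentalGroup M t)) :
    ∃ (K : Subgroup (FundamentalGroup M t)) (_ : K.Normal),
      (∀ γ : Path t t, (FundamentalGroup.fromPath (Path.Homotopic.Quotient.mk γ) ∈ K ↔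
        ActsTrivially p ι γ)) ∧ C (FundamentalGroup M t ⧸ K) := by
  let l : ∀ x : M, Path.Homotopic.Quotient t x := fun x =>
    Path.Homotopic.Quotient.mk (PathConnectedSpace.somePath t x)
  have := hfin t
  let ψ := psi cov ι l
  let K : Subgroup (FundamentalGroup M t) := ⨆ n, Pool.Agent.Y331.SS.Kn ψ n
  have hK : ∀ g, g ∈ K ↔ Dies ψ g := by
    intro g
    rw [Pool.Agent.Y331.SS.dies_iff, Subgroup.mem_iSup_of_directed
      (Pool.Agent.Y331.SS.Kn_mono ψ).directed_le]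
  have hKn : K.Normal := by
    refine ⟨fun n hn g => ?_⟩
    rw [Subgroup.mem_iSup_of_directed (Pool.Agent.Y331.SS.Kn_mono ψ).directed_le] at hn ⊢
    obtain ⟨i, hi⟩ := hn
    exact ⟨i, (Pool.Agent.Y331.SS.Kn_normal ψ i).conj_mem n hi g⟩
  refine ⟨K, hKn, fun γ => ?_, ?_⟩
  · rw [hK, acts_iff_dt cov ι hfin hM hlam hc γ]
    exact dies_iff_dt l _
  · exact Pool.Agent.Y331.SS.t_lim Pool.Agent.Y812.SS.t_wr C hC _ _ inferInstance ψ hπ K hK

end Pool.Agent.W5h38.IM
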