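import Pool.Agent.W5h38.IM.Defs
import Pool.Agent.Y462.SS.Base

/-!
# The wreath recursion of a correspondence
-/

set_option autoImplicit false

namespace Pool.Agent.W5h38.IM

open unitInterval Topology Pool.Agent.Y462.SS

variable {M M₁ : Type} [TopologicalSpace M] [TopologicalSpace M₁]
  {p : M₁ → M} (cov : IsCoveringMap p) (ι : C(M₁, M))

/-- the class `d` is a lift of the class `g` -/
def LiftsTo {a b : M} (g : Path.Homotopic.Quotient a b) {x y : M₁} (d : Path.Homotopic.Quotient x y) : Prop :=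
  ∃ (hx : a = p x) (hy : b = p y), d.map ⟨p, cov.continuous⟩ = (g.cast hx.symm hy.symm)

namespace LiftsTo

variable {cov}

theorem left {a b : M} {g : Path.Homotopic.Quotient a b} {x y : M₁} {d : Path.Homotopic.Quotient x y} (h : LiftsTo cov g d) :
    a = p x := h.1

theorem right {a b : M} {g : Path.Homotopic.Quotient a b} {x y : M₁} {d : Path.Homotopic.Quotient x y} (h : LiftsTo cov g d) :
    b = p y := h.2.1

theorem trans {a b c : M} {g : Path.Homotopic.Quotient a b} {g' : Path.Homotopic.Quotient b c} {x y z : M₁}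
    {d : Path.Homotopic.Quotient x y} {d' : Path.Homotopic.Quotient y z} (h : LiftsTo cov g d) (h' : LiftsTo cov g' d') :
    LiftsTo cov (g.trans g') (d.trans d') := by
  obtain ⟨rfl, rfl, h1⟩ := h
  obtain ⟨_, rfl, h2⟩ := h'
  refine ⟨rfl, rfl, ?_⟩
  rw [Path.Homotopic.Quotient.cast_rfl_rfl] at h1 h2 ⊢
  rw [← h1, ← h2]
  exact (FundamentalGroupoid.map ⟨p, cov.continuous⟩).map_comp
    (X := ⟨x⟩) (Y := ⟨y⟩) (Z := ⟨z⟩) d d'

theorem symm {a b : M} {g : Path.Homotopic.Quotient a b} {x y : M₁} {d : Path.Homotopic.Quotient x y} (h : LiftsTo cov g d) :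
    LiftsTo cov g.symm d.symm := by
  obtain ⟨rfl, rfl, h1⟩ := h
  refine ⟨rfl, rfl, ?_⟩
  rw [Path.Homotopic.Quotient.cast_rfl_rfl] at h1 ⊢
  rw [← h1]
  induction d using Path.Homotopic.Quotient.ind with | mk d => rfl

theorem refl {a : M} {x : M₁} (h : a = p x) : LiftsTo cov (Path.Homotopic.Quotient.refl a) (Path.Homotopic.Quotient.refl x) := by
  subst h
  exact ⟨rfl, rfl, rfl⟩

theorem unique {a b : M} {g : Path.Homotopic.Quotient a b} {x y y' : M₁} {d : Path.Homotopic.Quotient x y}
    {d' : Path.Homotopic.Quotient x y'} (h : LiftsTo cov g d) (h' : LiftsTo cov g d') :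
    ∃ e : y = y', d' = d.cast rfl e.symm := by
  obtain ⟨rfl, rfl, h1⟩ := h
  obtain ⟨_, hy, h2⟩ := h'
  rw [Path.Homotopic.Quotient.cast_rfl_rfl] at h1
  have e1 : cov.monodromy g ⟨x, rfl⟩ = ⟨y, rfl⟩ := by
    refine cov.monodromy_eq_of_map_eq (ex := ⟨x, rfl⟩) (ey := ⟨y, rfl⟩) d ?_
    rw [Path.Homotopic.Quotient.cast_rfl_rfl]
    exact h1
  have e2 : cov.monodromy g ⟨x, rfl⟩ = ⟨y', hy.symm⟩ := by
    refine cov.monodromy_eq_of_map_eq (ex := ⟨x, rfl⟩) (ey := ⟨y', hy.symm⟩) d' ?_
    exact h2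
  have e : y = y' := congrArg Subtype.val (e1.symm.trans e2)
  subst e
  refine ⟨rfl, ?_⟩
  rw [Path.Homotopic.Quotient.cast_rfl_rfl] at h2 ⊢
  exact cov.injective_path_homotopic_map x y (h2.trans h1.symm)

theorem exists_lift {a b : M} (g : Path.Homotopic.Quotient a b) {x : M₁} (h : a = p x) :
    ∃ (y : M₁) (d : Path.Homotopic.Quotient x y), LiftsTo cov g d := by
  subst h
  refine ⟨(cov.monodromy g ⟨x, rfl⟩).1, cov.liftPathQuotient g ⟨x, rfl⟩, rfl,
    (cov.monodromy g ⟨x, rfl⟩).2.symm, ?_⟩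
  exact cov.map_liftPathQuotient g ⟨x, rfl⟩

theorem monodromy {a b : M} {g : Path.Homotopic.Quotient a b} {x : p ⁻¹' {a}} {y : M₁} {d : Path.Homotopic.Quotient x.1 y}
    (h : LiftsTo cov g d) : (cov.monodromy g x).1 = y := by
  have h1 : LiftsTo cov g (cov.liftPathQuotient g x) :=
    ⟨x.2.symm, (cov.monodromy g x).2.symm, cov.map_liftPathQuotient g x⟩
  exact (h1.unique h).1

theorem path {a b : M} (γ : Path a b) {x y : M₁} (δ : Path x y) (h : ∀ s, p (δ s) = γ s) :
    LiftsTo cov (Path.Homotopic.Quotient.mk γ) (Path.Homotopic.Quotient.mk δ) := by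
  have hx : a = p x := by
    have := h 0
    rw [δ.source, γ.source] at this
    exact this.symm
  have hy : b = p y := by
    have := h 1
    rw [δ.target, γ.target] at this
    exact this.symm
  refine ⟨hx, hy, ?_⟩
  rw [← Path.Homotopic.Quotient.mk_cast, ← Path.Homotopic.Quotient.mk_map]
  congr 1
  ext s
  exact h s

end LiftsTo

section rec

variable {t : M} (l : ∀ x : M, Path.Homotopic.Quotient t x)

/-- the section of `γ` at `x` -/
noncomputable def sec (γ : Path.Homotopic.Quotient t t) (x : p ⁻¹' {t}) : Path.Homotopic.Quotient t t :=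
  (l (ι x.1)).trans (((cov.liftPathQuotient γ x).map ι).trans (l (ι (cov.monodromy γ x).1)).symm)

variable {cov}

theorem sec_eq {γ : Path.Homotopic.Quotient t t} {x : p ⁻¹' {t}} {y : M₁} {d : Path.Homotopic.Quotient x.1 y}
    (h : LiftsTo cov γ d) :
    sec cov ι l γ x = (l (ι x.1)).trans ((d.map ι).trans (l (ι y)).symm) := by
  have h1 : LiftsTo cov γ (cov.liftPathQuotient γ x) :=
    ⟨x.2.symm, (cov.monodromy γ x).2.symm, cov.map_liftPathQuotient γ x⟩
  obtain ⟨rfl, h2⟩ := h1.unique h
  rw [Path.Homotopic.Quotient.cast_rfl_rfl] at h2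
  rw [h2]
  rfl

theorem map_trans {X Y : Type} [TopologicalSpace X] [TopologicalSpace Y] (f : C(X, Y))
    {x y z : X} (d : Path.Homotopic.Quotient x y) (d' : Path.Homotopic.Quotient y z) :
    (d.trans d').map f = (d.map f).trans (d'.map f) :=
  (FundamentalGroupoid.map f).map_comp (X := ⟨x⟩) (Y := ⟨y⟩) (Z := ⟨z⟩) d d'

theorem map_symm {X Y : Type} [TopologicalSpace X] [TopologicalSpace Y] (f : C(X, Y))
    {x y : X} (d : Path.Homotopic.Quotient x y) : d.symm.map f = (d.map f).symm := by
  induction d using Path.Homotopic.Quotient.ind with | mk d => rfl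

variable (cov)

/-- the wreath recursion -/
noncomputable def psi : FundamentalGroup M t →* Wr (p ⁻¹' {t}) (FundamentalGroup M t) where
  toFun γ := ⟨fun x => sec cov ι l γ x, cov.monodromyPerm t γ⟩
  map_one' := by
    apply Wr.ext
    · funext x
      have h : LiftsTo cov (Path.Homotopic.Quotient.refl t) (Path.Homotopic.Quotient.refl x.1) := LiftsTo.refl x.2.symm
      have h2 := sec_eq ι l h
      change sec cov ι l (Path.Homotopic.Quotient.refl t) x = Path.Homotopic.Quotient.refl t
      rw [h2]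
      change (l (ι x.1)).trans ((Path.Homotopic.Quotient.refl (ι x.1)).trans (l (ι x.1)).symm) = Path.Homotopic.Quotient.refl t
      simp
    · exact map_one _
  map_mul' γ γ' := by
    apply Wr.ext
    · funext x
      obtain ⟨y', d', h'⟩ := LiftsTo.exists_lift (cov := cov) γ' x.2.symm
      obtain ⟨y, d, h⟩ := LiftsTo.exists_lift (cov := cov) γ h'.right
      have e1 := sec_eq ι l (h'.trans h)
      have hm : (cov.monodromy γ' x).1 = y' := h'.monodromy
      have e2 := sec_eq ι l h'
      have hy : cov.monodromyPerm t γ' x = ⟨y', h'.right.symm⟩ := Subtype.ext hm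
      have e3 : sec cov ι l γ (cov.monodromyPerm t γ' x) =
          (l (ι y')).trans ((d.map ι).trans (l (ι y)).symm) := by
        rw [hy]
        exact sec_eq ι l (x := ⟨y', h'.right.symm⟩) h
      change sec cov ι l (γ'.trans γ) x =
        (sec cov ι l γ' x).trans (sec cov ι l γ (cov.monodromyPerm t γ' x))
      rw [e1, e2, e3, map_trans]
      simp only [Path.Homotopic.Quotient.trans_assoc]
      congr 2
      rw [← Path.Homotopic.Quotient.trans_assoc (l (ι y')).symm, Path.Homotopic.Quotient.symm_trans, Path.Homotopic.Quotient.refl_trans]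
    · exact map_mul _ _ _

end rec

end Pool.Agent.W5h38.IM
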