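import Pool.Agent.W5h38.IM.Die

/-!
# Contraction: deep lifts of paths are short
-/

set_option autoImplicit false

namespace Pool.Agent.W5h38.IM

open unitInterval Topology Metric

variable {M M₁ : Type} [MetricSpace M] [CompactSpace M] [TopologicalSpace M₁] {p : M₁ → M}

theorem contr_unif (cov : IsCoveringMap p) (hfin : ∀ m, Finite (p ⁻¹' {m})) {ι : M₁ → M}
    {lam : ℝ} (h : LocallyContracts p ι lam) :
    ∃ ε > 0, ∀ (Γ : C(I, M₁)) (S : Set I), IsPreconnected S →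
      (∀ u ∈ S, ∀ v ∈ S, dist (p (Γ u)) (p (Γ v)) < ε) →
      ∀ u ∈ S, ∀ v ∈ S, dist (ι (Γ u)) (ι (Γ v)) ≤ lam * dist (p (Γ u)) (p (Γ v)) := by
  classical
  have key : ∀ m : M, ∃ V : Set M, IsOpen V ∧ m ∈ V ∧ ∀ (Γ : C(I, M₁)) (S : Set I),
      IsPreconnected S → (∀ u ∈ S, p (Γ u) ∈ V) →
      ∀ u ∈ S, ∀ v ∈ S, dist (ι (Γ u)) (ι (Γ v)) ≤ lam * dist (p (Γ u)) (p (Γ v)) := by
    intro m
    obtain ⟨hdisc, U, hmU, hU, hfU, H, hH⟩ := cov m
    have := hfin m
    choose W hW hWc using fun f : p ⁻¹' {m} => h (H.symm (⟨m, hmU⟩, f)).1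
    let A : Set U := ⋂ f : p ⁻¹' {m}, {u : U | (H.symm (u, f)).1 ∈ interior (W f)}
    have hA : IsOpen A := by
      refine isOpen_iInter_of_finite fun f => ?_
      refine isOpen_interior.preimage ?_
      exact continuous_subtype_val.comp (H.symm.continuous.comp (Continuous.prodMk_left f))
    refine ⟨Subtype.val '' A, hU.isOpenMap_subtype_val A hA, ⟨⟨m, hmU⟩, ?_, rfl⟩, ?_⟩
    · refine Set.mem_iInter.2 fun f => ?_
      exact mem_interior_iff_mem_nhds.2 (hW f)
    · intro Γ S hS hV u hu v hv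
      have hUS : ∀ u ∈ S, Γ u ∈ p ⁻¹' U := by
        intro u hu
        obtain ⟨q, _, hq⟩ := hV u hu
        have : p (Γ u) ∈ U := by
          rw [← hq]
          exact q.2
        exact this
      have hpc : PreconnectedSpace S := isPreconnected_iff_preconnectedSpace.1 hS
      let L : S → p ⁻¹' {m} := fun s => (H ⟨Γ s.1, hUS s.1 s.2⟩).2
      have hL : Continuous L := by
        refine continuous_snd.comp (H.continuous.comp ?_)
        exact (Γ.continuous.comp continuous_subtype_val).subtype_mk _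
      have hconst : ∀ s s' : S, L s = L s' := fun s s' =>
        PreconnectedSpace.constant hpc hL
      have hmem : ∀ s : S, Γ s.1 ∈ W (L ⟨u, hu⟩) := by
        intro s
        obtain ⟨q, hq, hq2⟩ := hV s.1 s.2
        have h1 : (H.symm (q, L ⟨u, hu⟩)).1 ∈ interior (W (L ⟨u, hu⟩)) :=
          Set.mem_iInter.1 hq (L ⟨u, hu⟩)
        have h2 : H.symm (q, L ⟨u, hu⟩) = ⟨Γ s.1, hUS s.1 s.2⟩ := by
          rw [Homeomorph.symm_apply_eq, hconst ⟨u, hu⟩ s]
          refine Prod.ext (Subtype.ext ?_) rfl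
          rw [hH, hq2]
        rw [h2] at h1
        exact interior_subset h1
      exact hWc _ _ (hmem ⟨u, hu⟩) _ (hmem ⟨v, hv⟩)
  choose V hVo hmV hV using key
  obtain ⟨ε, hε, hLeb⟩ := lebesgue_number_lemma_of_metric (isCompact_univ (X := M)) hVo
    (fun x _ => Set.mem_iUnion.2 ⟨x, hmV x⟩)
  refine ⟨ε, hε, fun Γ S hS hd u hu v hv => ?_⟩
  obtain ⟨i, hi⟩ := hLeb (p (Γ u)) (Set.mem_univ _)
  exact hV i Γ S hS (fun w hw => hi (mem_ball.2 (hd w hw u hu))) u hu v hv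

theorem tiny_loops (hM : SemilocallySimplyConnected M) :
    ∃ ε > 0, ∀ (a : M) (γ : Path a a), (∀ s, dist (γ s) a < ε) →
      γ.Homotopic (Path.refl a) := by
  choose U hU hUc using hM
  obtain ⟨ε, hε, hLeb⟩ := lebesgue_number_lemma_of_metric (isCompact_univ (X := M))
    (fun x => isOpen_interior (s := U x))
    (fun x _ => Set.mem_iUnion.2 ⟨x, mem_interior_iff_mem_nhds.2 (hU x)⟩)
  refine ⟨ε, hε, fun a γ h => ?_⟩
  obtain ⟨i, hi⟩ := hLeb a (Set.mem_univ _)
  exact hUc i a γ fun s => interior_subset (hi (mem_ball.2 (h s)))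

theorem partition (γ : C(I, M)) {r : ℝ} (hr : 0 < r) :
    ∃ (t : ℕ → I) (N : ℕ), t 0 = 0 ∧ Monotone t ∧ t N = 1 ∧
      ∀ k, ∀ u ∈ Set.Icc (t k) (t (k + 1)), ∀ v ∈ Set.Icc (t k) (t (k + 1)),
        dist (γ u) (γ v) ≤ r := by
  obtain ⟨t, h0, hm, ⟨N, hN⟩, ht⟩ := exists_monotone_Icc_subset_open_cover_unitInterval
    (c := fun m : M => γ ⁻¹' ball m (r / 2)) (fun m => isOpen_ball.preimage γ.continuous)
    (fun s _ => Set.mem_iUnion.2 ⟨γ s, mem_ball_self (by positivity)⟩)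
  refine ⟨t, N, h0, hm, hN N le_rfl, fun k u hu v hv => ?_⟩
  obtain ⟨m, hmm⟩ := ht k
  have h1 : dist (γ u) m < r / 2 := hmm hu
  have h2 : dist (γ v) m < r / 2 := hmm hv
  linarith [dist_triangle_right (γ u) (γ v) m]

theorem total {t : ℕ → I} {N : ℕ} (h0 : t 0 = 0) (hm : Monotone t) (hN : t N = 1) (γ : I → M)
    {r : ℝ} (hr : 0 ≤ r)
    (h : ∀ k, ∀ u ∈ Set.Icc (t k) (t (k + 1)), ∀ v ∈ Set.Icc (t k) (t (k + 1)),
        dist (γ u) (γ v) ≤ r) (u : I) : dist (γ u) (γ 0) ≤ N * r := by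
  have key : ∀ k : ℕ, ∀ u : I, u ≤ t k → dist (γ u) (γ 0) ≤ k * r := by
    intro k
    induction k with
    | zero =>
      intro u hu
      have : u = 0 := le_antisymm (h0 ▸ hu) u.2.1
      rw [this, dist_self]
      simp
    | succ k ih =>
      intro u hu
      rcases le_total u (t k) with h1 | h1
      · refine (ih u h1).trans ?_
        push_cast
        linarith
      · have h2 := ih (t k) le_rfl
        have h3 := h k u ⟨h1, hu⟩ (t k) ⟨le_rfl, hm (Nat.le_succ k)⟩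
        have h4 := dist_triangle (γ u) (γ (t k)) (γ 0)
        push_cast
        linarith
  exact key N u (hN ▸ u.2.2)

end Pool.Agent.W5h38.IM
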